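import Mathlib

set_option autoImplicit false

/-! # Positive association of the fixed-point weighted measure for `q` near `0` and near `1` -/

namespace Pool.Agent.Results.MP_f011a7_co.BothEnds

open Finset

/-- A strong up-set of permutations (tuples `a 0, …, a (n-1)`): whenever the pair of entries
`i < j` is an inversion of `a ∈ A` (that is, the position of `j` is smaller than the position of
`i`), the tuple obtained by exchanging the entries `i` and `j` lies in `A`. -/
def StrongUpSet {n : ℕ} (A : Set (Equiv.Perm (Fin n))) : Prop :=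
  ∀ a ∈ A, ∀ i j : Fin n, i < j → a.symm j < a.symm i → Equiv.swap i j * a ∈ A

/-- The number of fixed points of `a`. -/
def fixedPoints {n : ℕ} (a : Equiv.Perm (Fin n)) : ℕ :=
  (Finset.univ.filter fun k => a k = k).card

/-- The weight `q ^ (n - f(a))`. -/
noncomputable def weight {n : ℕ} (q : ℝ) (a : Equiv.Perm (Fin n)) : ℝ :=
  q ^ (n - fixedPoints a)

/-- The measure `μ_{n,q}` of a set of permutations. -/
noncomputable def mu (n : ℕ) (q : ℝ) (A : Set (Equiv.Perm (Fin n))) : ℝ :=
  (∑ a, A.indicator (weight q) a) / ∑ b : Equiv.Perm (Fin n), weight q b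

/-- Closed under creating inversions. -/
def Closed {n : ℕ} (F : Set (Equiv.Perm (Fin n))) : Prop :=
  ∀ a ∈ F, ∀ i j : Fin n, i < j → a.symm i < a.symm j → Equiv.swap i j * a ∈ F

theorem closed_compl {n : ℕ} {A : Set (Equiv.Perm (Fin n))} (h : StrongUpSet A) :
    Closed Aᶜ := by
  intro a ha i j hij hp hmem
  apply ha
  have := h _ hmem i j hij ?_
  · rwa [← mul_assoc, Equiv.swap_mul_self, one_mul] at this
  · have e1 : (Equiv.swap i j * a).symm j = a.symm i := by
      rw [Equiv.symm_apply_eq]; simp
    have e2 : (Equiv.swap i j * a).symm i = a.symm j := by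
      rw [Equiv.symm_apply_eq]; simp
    rw [e1, e2]; exact hp

/-- The potential `∑ pos(v) * v`. -/
def pot {n : ℕ} (a : Equiv.Perm (Fin n)) : ℤ := ∑ v : Fin n, ((a.symm v : ℕ) : ℤ) * ((v : ℕ) : ℤ)

theorem symm_swap_mul {n : ℕ} (a : Equiv.Perm (Fin n)) (i j v : Fin n) :
    (Equiv.swap i j * a).symm v = a.symm (Equiv.swap i j v) := by
  rw [Equiv.symm_apply_eq]; simp

theorem pot_lt {n : ℕ} (a : Equiv.Perm (Fin n)) {i j : Fin n} (hij : i < j)
    (hp : a.symm i < a.symm j) : pot (Equiv.swap i j * a) < pot a := by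
  rw [← sub_pos]
  have : pot a - pot (Equiv.swap i j * a) =
      ∑ v : Fin n, (((a.symm v : ℕ) : ℤ) - ((a.symm (Equiv.swap i j v) : ℕ) : ℤ)) *
        ((v : ℕ) : ℤ) := by
    unfold pot
    rw [← Finset.sum_sub_distrib]
    refine Finset.sum_congr rfl fun v _ => ?_
    rw [symm_swap_mul]; ring
  rw [this, Finset.sum_eq_add i j hij.ne ?_ (by simp) (by simp)]
  · rw [Equiv.swap_apply_left, Equiv.swap_apply_right]
    have h1 : ((i : ℕ) : ℤ) < ((j : ℕ) : ℤ) := by exact_mod_cast hij
    have h2 : ((a.symm i : ℕ) : ℤ) < ((a.symm j : ℕ) : ℤ) := by exact_mod_cast hp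
    nlinarith
  · intro c _ hc
    rw [Equiv.swap_apply_of_ne_of_ne hc.1 hc.2]; simp

/-- A nonempty strong up-set contains the identity. -/
theorem one_mem_of_strongUpSet {n : ℕ} {A : Set (Equiv.Perm (Fin n))} (hA : StrongUpSet A)
    (hne : A.Nonempty) : (1 : Equiv.Perm (Fin n)) ∈ A := by
  classical
  obtain ⟨x, hx, hmax⟩ := Finset.exists_max_image (Finset.univ.filter fun x => x ∈ A)
    pot (by obtain ⟨x, hx⟩ := hne; exact ⟨x, by simpa using hx⟩)
  have hxA : x ∈ A := by simpa using hx
  have hmono : ∀ i j : Fin n, i < j → x.symm i < x.symm j := by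
    intro i j hij
    by_contra hcon
    have hlt : x.symm j < x.symm i := by
      rcases lt_trichotomy (x.symm i) (x.symm j) with h | h | h
      · exact absurd h hcon
      · exact absurd (x.symm.injective h) hij.ne
      · exact h
    have h1 := hA x hxA i j hij hlt
    have h2 := hmax (Equiv.swap i j * x) (by simpa using h1)
    have h3 : pot (Equiv.swap i j * (Equiv.swap i j * x)) < pot (Equiv.swap i j * x) := by
      apply pot_lt _ hij
      rw [symm_swap_mul, symm_swap_mul, Equiv.swap_apply_left, Equiv.swap_apply_right]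
      exact hlt
    rw [← mul_assoc, Equiv.swap_mul_self, one_mul] at h3
    omega
  have hx1 : x = 1 := by
    have hs : StrictMono x.symm := fun i j hij => hmono i j hij
    have h2 : ∀ v, x.symm v = v := by
      intro v
      have h3 : (x.symm : Fin n ≃ Fin n) = Equiv.refl _ := by
        have := Subsingleton.elim (hs.orderIsoOfSurjective _ x.symm.surjective)
          (OrderIso.refl (Fin n))
        ext k
        have h4 := congrArg (fun e : Fin n ≃o Fin n => e k) this
        simpa using congrArg Fin.val h4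
      rw [h3]; rfl
    ext k
    have := h2 (x k)
    rw [Equiv.symm_apply_apply] at this
    rw [← this]; rfl
  rw [← hx1]; exact hxA

/-- Among the elements of `F` of smallest support there is one moving both ends. -/
theorem exists_ends {m : ℕ} {F : Set (Equiv.Perm (Fin (m + 1)))} (hF : Closed F)
    (hne : F.Nonempty) (h1 : (1 : Equiv.Perm (Fin (m + 1))) ∉ F) :
    ∃ x ∈ F, (∀ y ∈ F, x.support.card ≤ y.support.card) ∧ 0 ∈ x.support ∧
      Fin.last m ∈ x.support := by
  classical
  obtain ⟨x0, hx0, hmin⟩ := Finset.exists_min_image (Finset.univ.filter fun x => x ∈ F)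
    (fun x => x.support.card) (by obtain ⟨x, hx⟩ := hne; exact ⟨x, by simpa using hx⟩)
  have hx0F : x0 ∈ F := by simpa using hx0
  obtain ⟨x, hx, hpot⟩ := Finset.exists_min_image
    (Finset.univ.filter fun x => x ∈ F ∧ x.support.card ≤ x0.support.card) pot
    ⟨x0, by simpa using hx0F⟩
  have hxF : x ∈ F := by simp at hx; exact hx.1
  have hxc : x.support.card ≤ x0.support.card := by simp at hx; exact hx.2
  have hpot' : ∀ y ∈ F, y.support.card ≤ x0.support.card → pot x ≤ pot y := by
    intro y hy hy2
    exact hpot y (by simp [hy, hy2])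
  have hx1 : x ≠ 1 := fun h => h1 (h ▸ hxF)
  have hsne : x.support.Nonempty := by
    rw [Finset.nonempty_iff_ne_empty]; intro h; exact hx1 (Equiv.Perm.support_eq_empty_iff.mp h)
  have key : ∀ (y : Equiv.Perm (Fin (m + 1))) (t v : Fin (m + 1)), v ∈ x.support →
      y.support ⊆ insert t (x.support.erase v) → y.support.card ≤ x0.support.card := by
    intro y t v hv hsub
    refine le_trans (Finset.card_le_card hsub) (le_trans (Finset.card_insert_le _ _) ?_)
    rw [Finset.card_erase_of_mem hv]
    have : 0 < x.support.card := Finset.card_pos.mpr ⟨v, hv⟩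
    omega
  refine ⟨x, hxF, ?_, ?_, ?_⟩
  · intro y hy
    exact hxc.trans (hmin y (by simpa using hy))
  · by_contra h0
    have hx0' : x 0 = 0 := by simpa [Equiv.Perm.mem_support] using h0
    obtain ⟨v, hv, hvmin⟩ : ∃ v ∈ x.support, ∀ w ∈ x.support, v ≤ w :=
      ⟨x.support.min' hsne, Finset.min'_mem _ _, fun w hw => Finset.min'_le _ _ hw⟩
    have hv0 : v ≠ 0 := fun h => h0 (h ▸ hv)
    have hvp : 0 < v := Fin.pos_iff_ne_zero.mpr hv0
    set w := x v with hw
    have hwv : w ≠ v := by simpa [Equiv.Perm.mem_support] using hv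
    have hws : w ∈ x.support := Equiv.Perm.apply_mem_support.mpr hv
    have hvw : v < w := lt_of_le_of_ne (hvmin w hws) (Ne.symm hwv)
    set u := x.symm v with hu
    have hxu : x u = v := by simp [hu]
    have huv : u ≠ v := by
      intro h; rw [h] at hxu; exact hwv (hw.trans hxu)
    have hus : u ∈ x.support := by
      rw [Equiv.Perm.mem_support, hxu]; exact huv.symm
    have hvu : v < u := lt_of_le_of_ne (hvmin u hus) (Ne.symm huv)
    have hs0 : x.symm 0 = 0 := by rw [Equiv.symm_apply_eq]; exact hx0'.symm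
    have hsw : x.symm w = v := by simp [hw]
    have hw0 : 0 < w := hvp.trans hvw
    have c1 : x.symm 0 < x.symm w := by rw [hs0, hsw]; exact hvp
    have hy1 := hF x hxF 0 w hw0 c1
    have p1 := pot_lt x hw0 c1
    set y1 := Equiv.swap 0 w * x with hy1d
    have e1 : y1.symm 0 = v := by
      rw [hy1d, symm_swap_mul, Equiv.swap_apply_left, hsw]
    have e2 : y1.symm v = u := by
      rw [hy1d, symm_swap_mul, Equiv.swap_apply_of_ne_of_ne hv0 hwv.symm]
    have c2 : y1.symm 0 < y1.symm v := by rw [e1, e2]; exact hvu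
    have hy2 := hF y1 hy1 0 v hvp c2
    have p2 := pot_lt y1 hvp c2
    have hle := hpot' _ hy2 (key _ 0 v hv ?_)
    · omega
    · intro k hk
      by_contra hk2
      simp only [Finset.mem_insert, Finset.mem_erase, not_or, not_and] at hk2
      rw [Equiv.Perm.mem_support] at hk
      apply hk
      by_cases hkv : k = v
      · subst hkv
        show Equiv.swap 0 k (Equiv.swap 0 w (x k)) = k
        rw [← hw, Equiv.swap_apply_right, Equiv.swap_apply_left]
      · have hkx : x k = k := by
          have := hk2.2 hkv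
          simpa [Equiv.Perm.mem_support] using this
        have hkw : k ≠ w := by
          intro h; rw [h] at hkx; rw [Equiv.Perm.mem_support] at hws; exact hws hkx
        show Equiv.swap 0 v (Equiv.swap 0 w (x k)) = k
        rw [hkx, Equiv.swap_apply_of_ne_of_ne hk2.1 hkw,
          Equiv.swap_apply_of_ne_of_ne hk2.1 hkv]
  · by_contra h0
    have hx0' : x (Fin.last m) = Fin.last m := by simpa [Equiv.Perm.mem_support] using h0
    obtain ⟨v, hv, hvmax⟩ : ∃ v ∈ x.support, ∀ w ∈ x.support, w ≤ v :=
      ⟨x.support.max' hsne, Finset.max'_mem _ _, fun w hw => Finset.le_max' _ _ hw⟩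
    have hv0 : v ≠ Fin.last m := fun h => h0 (h ▸ hv)
    have hvp : v < Fin.last m := lt_of_le_of_ne (Fin.le_last v) hv0
    set w := x v with hw
    have hwv : w ≠ v := by simpa [Equiv.Perm.mem_support] using hv
    have hws : w ∈ x.support := Equiv.Perm.apply_mem_support.mpr hv
    have hvw : w < v := lt_of_le_of_ne (hvmax w hws) hwv
    set u := x.symm v with hu
    have hxu : x u = v := by simp [hu]
    have huv : u ≠ v := by
      intro h; rw [h] at hxu; exact hwv (hw.trans hxu)
    have hus : u ∈ x.support := by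
      rw [Equiv.Perm.mem_support, hxu]; exact huv.symm
    have hvu : u < v := lt_of_le_of_ne (hvmax u hus) huv
    have hs0 : x.symm (Fin.last m) = Fin.last m := by
      rw [Equiv.symm_apply_eq]; exact hx0'.symm
    have hsw : x.symm w = v := by simp [hw]
    have hw0 : w < Fin.last m := hvw.trans hvp
    have c1 : x.symm w < x.symm (Fin.last m) := by rw [hs0, hsw]; exact hvp
    have hy1 := hF x hxF w (Fin.last m) hw0 c1
    have p1 := pot_lt x hw0 c1
    set y1 := Equiv.swap w (Fin.last m) * x with hy1d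
    have e1 : y1.symm (Fin.last m) = v := by
      rw [hy1d, symm_swap_mul, Equiv.swap_apply_right, hsw]
    have e2 : y1.symm v = u := by
      rw [hy1d, symm_swap_mul, Equiv.swap_apply_of_ne_of_ne hwv.symm hv0]
    have c2 : y1.symm v < y1.symm (Fin.last m) := by rw [e1, e2]; exact hvu
    have hy2 := hF y1 hy1 v (Fin.last m) hvp c2
    have p2 := pot_lt y1 hvp c2
    have hle := hpot' _ hy2 (key _ (Fin.last m) v hv ?_)
    · omega
    · intro k hk
      by_contra hk2
      simp only [Finset.mem_insert, Finset.mem_erase, not_or, not_and] at hk2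
      rw [Equiv.Perm.mem_support] at hk
      apply hk
      by_cases hkv : k = v
      · subst hkv
        show Equiv.swap k (Fin.last m) (Equiv.swap w (Fin.last m) (x k)) = k
        rw [← hw, Equiv.swap_apply_left, Equiv.swap_apply_right]
      · have hkx : x k = k := by
          have := hk2.2 hkv
          simpa [Equiv.Perm.mem_support] using this
        have hkw : k ≠ w := by
          intro h; rw [h] at hkx; rw [Equiv.Perm.mem_support] at hws; exact hws hkx
        show Equiv.swap v (Fin.last m) (Equiv.swap w (Fin.last m) (x k)) = k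
        rw [hkx, Equiv.swap_apply_of_ne_of_ne hkw hk2.1,
          Equiv.swap_apply_of_ne_of_ne hkv hk2.1]

/-- The reversal of `V` lies in a closed set which has an element moving only points of `V`. -/
theorem exists_top {n : ℕ} {F : Set (Equiv.Perm (Fin n))} (hF : Closed F)
    {x : Equiv.Perm (Fin n)} (hx : x ∈ F) {V : Finset (Fin n)} (hV : x.support ⊆ V) :
    ∃ z ∈ F, z.support ⊆ V ∧ ∀ i ∈ V, ∀ j ∈ V, i < j → z.symm j < z.symm i := by
  classical
  obtain ⟨z, hz, hmin⟩ := Finset.exists_min_image
    (Finset.univ.filter fun x => x ∈ F ∧ x.support ⊆ V) pot ⟨x, by simp [hx, hV]⟩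
  simp only [Finset.mem_filter, Finset.mem_univ, true_and] at hz
  refine ⟨z, hz.1, hz.2, fun i hi j hj hij => ?_⟩
  by_contra hcon
  have hlt : z.symm i < z.symm j := by
    rcases lt_trichotomy (z.symm i) (z.symm j) with h | h | h
    · exact h
    · exact absurd (z.symm.injective h) hij.ne
    · exact absurd h hcon
  have h1 := hF z hz.1 i j hij hlt
  have h2 := pot_lt z hij hlt
  have h3 : (Equiv.swap i j * z).support ⊆ V := by
    intro k hk
    by_contra hkV
    rw [Equiv.Perm.mem_support] at hk
    apply hk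
    have hzk : z k = k := by
      have : k ∉ z.support := fun h => hkV (hz.2 h)
      simpa [Equiv.Perm.mem_support] using this
    show Equiv.swap i j (z k) = k
    rw [hzk, Equiv.swap_apply_of_ne_of_ne]
    · rintro rfl; exact hkV hi
    · rintro rfl; exact hkV hj
  have := hmin (Equiv.swap i j * z) (Finset.mem_filter.mpr ⟨Finset.mem_univ _, h1, h3⟩)
  omega

theorem mem_of_support {n : ℕ} {z : Equiv.Perm (Fin n)} {V : Finset (Fin n)}
    (hz : z.support ⊆ V) {v : Fin n} (hv : v ∈ V) : z v ∈ V ∧ z.symm v ∈ V := by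
  constructor
  · by_cases h : z v = v
    · rwa [h]
    · exact hz (Equiv.Perm.apply_mem_support.mpr (by simpa [Equiv.Perm.mem_support] using h))
  · by_cases h : z.symm v = v
    · rwa [h]
    · apply hz
      rw [Equiv.Perm.mem_support]
      intro h2
      apply h
      rw [Equiv.apply_symm_apply] at h2
      exact h2.symm

theorem top_aux {n : ℕ} {V : Finset (Fin n)} {z z' : Equiv.Perm (Fin n)}
    (hz : z.support ⊆ V) (hz' : z'.support ⊆ V)
    (ha : ∀ i ∈ V, ∀ j ∈ V, i < j → z.symm j < z.symm i)
    {v : Fin n} (hv : v ∈ V) (ih : ∀ w ∈ V, w < v → z.symm w = z'.symm w) :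
    ¬ z.symm v < z'.symm v := by
  intro hlt
  set p := z'.symm v with hp
  have hpV : p ∈ V := (mem_of_support hz' hv).2
  have hwV : z p ∈ V := (mem_of_support hz hpV).1
  have hzw : z.symm (z p) = p := by simp
  rcases lt_trichotomy (z p) v with h | h | h
  · have h1 := ih _ hwV h
    rw [hzw, hp] at h1
    exact absurd (z'.symm.injective h1) h.ne'
  · rw [h] at hzw
    rw [hzw] at hlt
    exact lt_irrefl _ hlt
  · have h1 := ha v hv _ hwV h
    rw [hzw] at h1
    exact lt_asymm h1 hlt

theorem top_unique {n : ℕ} {V : Finset (Fin n)} {z z' : Equiv.Perm (Fin n)}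
    (hz : z.support ⊆ V) (hz' : z'.support ⊆ V)
    (ha : ∀ i ∈ V, ∀ j ∈ V, i < j → z.symm j < z.symm i)
    (ha' : ∀ i ∈ V, ∀ j ∈ V, i < j → z'.symm j < z'.symm i) : z = z' := by
  have h1 : ∀ v, z.symm v = z'.symm v := by
    intro v
    induction v using WellFoundedLT.induction with
    | ind v ih =>
      by_cases hv : v ∈ V
      · have a1 := top_aux hz hz' ha hv (fun w _ hw => ih w hw)
        have a2 := top_aux hz' hz ha' hv (fun w _ hw => (ih w hw).symm)
        exact le_antisymm (not_lt.mp a2) (not_lt.mp a1)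
      · have e1 : z v = v := by
          have : v ∉ z.support := fun h => hv (hz h)
          simpa [Equiv.Perm.mem_support] using this
        have e2 : z' v = v := by
          have : v ∉ z'.support := fun h => hv (hz' h)
          simpa [Equiv.Perm.mem_support] using this
        have e3 : z.symm v = v := by rw [Equiv.symm_apply_eq]; exact e1.symm
        have e4 : z'.symm v = v := by rw [Equiv.symm_apply_eq]; exact e2.symm
        rw [e3, e4]
  have h2 : z.symm = z'.symm := Equiv.ext h1
  have h3 := congrArg Equiv.symm h2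
  simpa using h3

theorem weight_eq {n : ℕ} (q : ℝ) (a : Equiv.Perm (Fin n)) :
    weight q a = q ^ a.support.card := by
  unfold weight fixedPoints
  congr 1
  have h : (Finset.univ.filter fun k => a k = k).card + a.support.card = n := by
    have := Finset.card_filter_add_card_filter_not (s := (Finset.univ : Finset (Fin n)))
      (fun k => a k = k)
    simpa [Equiv.Perm.support] using this
  omega

theorem weight_nonneg {n : ℕ} {q : ℝ} (hq : 0 < q) (a : Equiv.Perm (Fin n)) :
    0 ≤ weight q a := by
  unfold weight; positivity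

/-- If two closed sets have elements with supports of sizes `s` and `t` minimal, both moving the
two ends, then their intersection has an element with support of size at most `s + t - 2`. -/
theorem exists_inter {m : ℕ} {F G : Set (Equiv.Perm (Fin (m + 2)))} (hF : Closed F)
    (hG : Closed G) (hFn : F.Nonempty) (hGn : G.Nonempty)
    (hF1 : (1 : Equiv.Perm (Fin (m + 2))) ∉ F) (hG1 : (1 : Equiv.Perm (Fin (m + 2))) ∉ G) :
    ∃ s t : ℕ, ∃ z ∈ F ∩ G, (∀ y ∈ F, s ≤ y.support.card) ∧ (∀ y ∈ G, t ≤ y.support.card) ∧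
      z.support.card + 2 ≤ s + t := by
  obtain ⟨x, hx, hxm, hx0, hxl⟩ := exists_ends hF hFn hF1
  obtain ⟨y, hy, hym, hy0, hyl⟩ := exists_ends hG hGn hG1
  set V := x.support ∪ y.support with hV
  obtain ⟨z, hz, hzV, hza⟩ := exists_top hF hx (V := V) Finset.subset_union_left
  obtain ⟨z', hz', hzV', hza'⟩ := exists_top hG hy (V := V) Finset.subset_union_right
  have he : z = z' := top_unique hzV hzV' hza hza'
  refine ⟨x.support.card, y.support.card, z, ⟨hz, he ▸ hz'⟩, hxm, hym, ?_⟩
  have h1 := Finset.card_union_add_card_inter x.support y.support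
  have h2 : ({0, Fin.last (m + 1)} : Finset (Fin (m + 2))) ⊆ x.support ∩ y.support := by
    intro k hk
    simp only [Finset.mem_insert, Finset.mem_singleton] at hk
    rcases hk with rfl | rfl
    · exact Finset.mem_inter.mpr ⟨hx0, hy0⟩
    · exact Finset.mem_inter.mpr ⟨hxl, hyl⟩
  have h3 := Finset.card_le_card h2
  rw [Finset.card_pair (by simp [Fin.ext_iff])] at h3
  have h4 := Finset.card_le_card hzV
  rw [← hV] at h1
  omega

theorem sum_le {n : ℕ} {q : ℝ} (hq : 0 < q) (hq1 : q ≤ 1) (F : Set (Equiv.Perm (Fin n))) (s : ℕ)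
    (hs : ∀ y ∈ F, s ≤ y.support.card) :
    ∑ a, F.indicator (weight q) a ≤ (n.factorial : ℝ) * q ^ s := by
  classical
  have h : ∀ a ∈ (Finset.univ : Finset (Equiv.Perm (Fin n))),
      F.indicator (weight q) a ≤ q ^ s := by
    intro a _
    by_cases ha : a ∈ F
    · rw [Set.indicator_of_mem ha, weight_eq]
      exact pow_le_pow_of_le_one hq.le hq1 (hs a ha)
    · rw [Set.indicator_of_notMem ha]; positivity
  have := Finset.sum_le_card_nsmul _ _ _ h
  rw [nsmul_eq_mul, Finset.card_univ, Fintype.card_perm, Fintype.card_fin] at this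
  exact this

/-! ### The uniform measure -/

/-- Insert the largest entry at position `p`. -/
def ins {n : ℕ} (p : Fin (n + 1)) (e : Equiv.Perm (Fin n)) : Equiv.Perm (Fin (n + 1)) :=
  (finSuccEquiv' p).trans ((Equiv.optionCongr e).trans (finSuccEquiv' (Fin.last n)).symm)

theorem ins_at {n : ℕ} (p : Fin (n + 1)) (e : Equiv.Perm (Fin n)) : ins p e p = Fin.last n := by
  simp [ins]

theorem ins_succAbove {n : ℕ} (p : Fin (n + 1)) (e : Equiv.Perm (Fin n)) (k : Fin n) :
    ins p e (p.succAbove k) = Fin.castSucc (e k) := by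
  simp [ins]

theorem ins_symm_last {n : ℕ} (p : Fin (n + 1)) (e : Equiv.Perm (Fin n)) :
    (ins p e).symm (Fin.last n) = p := by
  rw [Equiv.symm_apply_eq, ins_at]

theorem ins_symm_castSucc {n : ℕ} (p : Fin (n + 1)) (e : Equiv.Perm (Fin n)) (i : Fin n) :
    (ins p e).symm (Fin.castSucc i) = p.succAbove (e.symm i) := by
  rw [Equiv.symm_apply_eq, ins_succAbove]; simp

theorem ins_injective {n : ℕ} :
    Function.Injective (fun x : Fin (n + 1) × Equiv.Perm (Fin n) => ins x.1 x.2) := by
  rintro ⟨p, e⟩ ⟨p', e'⟩ h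
  simp only at h
  have hp : p = p' := by
    have := ins_symm_last p e
    rw [h, ins_symm_last] at this
    exact this.symm
  subst hp
  have he : e = e' := by
    ext k
    have := ins_succAbove p e k
    rw [h, ins_succAbove] at this
    have := Fin.castSucc_injective _ this
    rw [this]
  rw [he]

theorem ins_bijective {n : ℕ} :
    Function.Bijective (fun x : Fin (n + 1) × Equiv.Perm (Fin n) => ins x.1 x.2) := by
  rw [Fintype.bijective_iff_injective_and_card]
  refine ⟨ins_injective, ?_⟩
  rw [Fintype.card_prod, Fintype.card_perm, Fintype.card_perm, Fintype.card_fin, Fintype.card_fin,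
    Nat.factorial_succ]

/-- The number of elements of `A`. -/
noncomputable def cnt {n : ℕ} (A : Set (Equiv.Perm (Fin n))) : ℤ :=
  ∑ a, A.indicator (fun _ => (1 : ℤ)) a

/-- The fibre of `A` over the position `p` of the largest entry. -/
def fib {n : ℕ} (A : Set (Equiv.Perm (Fin (n + 1)))) (p : Fin (n + 1)) :
    Set (Equiv.Perm (Fin n)) := {e | ins p e ∈ A}

theorem cnt_fib {n : ℕ} (A : Set (Equiv.Perm (Fin (n + 1)))) : cnt A = ∑ p, cnt (fib A p) := by
  unfold cnt
  rw [← Fintype.sum_prod_type']
  refine (Fintype.sum_equiv (Equiv.ofBijective _ ins_bijective) _ _ ?_).symm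
  rintro ⟨p, e⟩
  simp only [Equiv.ofBijective_apply]
  by_cases h : ins p e ∈ A
  · rw [Set.indicator_of_mem h, Set.indicator_of_mem (show e ∈ fib A p from h)]
  · rw [Set.indicator_of_notMem h, Set.indicator_of_notMem (show e ∉ fib A p from h)]

theorem cnt_mono {n : ℕ} {A B : Set (Equiv.Perm (Fin n))} (h : A ⊆ B) : cnt A ≤ cnt B := by
  unfold cnt
  exact Finset.sum_le_sum fun a _ => Set.indicator_le_indicator_of_subset h (fun _ => by simp) a

theorem cnt_lt {n : ℕ} {A B : Set (Equiv.Perm (Fin n))} (h : A ⊆ B) (hne : A ≠ B) :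
    cnt A < cnt B := by
  unfold cnt
  obtain ⟨b, hb, hbA⟩ : ∃ b ∈ B, b ∉ A := by
    by_contra hcon
    push Not at hcon
    exact hne (Set.Subset.antisymm h hcon)
  refine Finset.sum_lt_sum (fun a _ => Set.indicator_le_indicator_of_subset h (fun _ => by simp) a)
    ⟨b, Finset.mem_univ _, ?_⟩
  rw [Set.indicator_of_mem hb, Set.indicator_of_notMem hbA]; norm_num

theorem cnt_nonneg {n : ℕ} (A : Set (Equiv.Perm (Fin n))) : 0 ≤ cnt A :=
  Finset.sum_nonneg fun a _ => Set.indicator_nonneg (fun _ _ => by simp) a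

theorem cnt_univ {n : ℕ} : cnt (Set.univ : Set (Equiv.Perm (Fin n))) = (n.factorial : ℤ) := by
  unfold cnt
  simp [Fintype.card_perm]

theorem swap_mul_ins {n : ℕ} (p : Fin (n + 1)) (e : Equiv.Perm (Fin n)) (i j : Fin n) :
    Equiv.swap (Fin.castSucc i) (Fin.castSucc j) * ins p e = ins p (Equiv.swap i j * e) := by
  apply Equiv.ext
  intro x
  by_cases hx : x = p
  · subst hx
    rw [Equiv.Perm.mul_apply, ins_at, ins_at, Equiv.swap_apply_of_ne_of_ne
      (Fin.castSucc_lt_last i).ne' (Fin.castSucc_lt_last j).ne']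
  · obtain ⟨k, rfl⟩ := Fin.exists_succAbove_eq hx
    rw [Equiv.Perm.mul_apply, ins_succAbove, ins_succAbove, Equiv.Perm.mul_apply,
      (Fin.castSucc_injective n).swap_apply]

theorem fib_strong {n : ℕ} {A : Set (Equiv.Perm (Fin (n + 1)))} (hA : StrongUpSet A)
    (p : Fin (n + 1)) : StrongUpSet (fib A p) := by
  intro e he i j hij hinv
  have h := hA (ins p e) he (Fin.castSucc i) (Fin.castSucc j) (Fin.castSucc_lt_castSucc_iff.mpr hij)
    (by rw [ins_symm_castSucc, ins_symm_castSucc]
        exact (Fin.strictMono_succAbove p) hinv)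
  rw [swap_mul_ins] at h
  exact h

theorem swap_last_ins {n : ℕ} (p : Fin n) (e : Equiv.Perm (Fin n)) :
    Equiv.swap (Fin.castSucc (e p)) (Fin.last n) * ins p.castSucc e = ins p.succ e := by
  have hl : ∀ i : Fin n, Fin.castSucc i ≠ Fin.last n := fun i => (Fin.castSucc_lt_last i).ne
  apply Equiv.ext
  intro x
  by_cases hx : x = p.succ
  · subst hx
    rw [ins_at]
    have : p.succ = p.castSucc.succAbove p := by rw [Fin.succAbove_castSucc_self]
    rw [Equiv.Perm.mul_apply, this, ins_succAbove, Equiv.swap_apply_left]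
  · obtain ⟨k, rfl⟩ := Fin.exists_succAbove_eq hx
    rw [ins_succAbove, Equiv.Perm.mul_apply]
    by_cases hk : k = p
    · subst hk
      rw [Fin.succAbove_succ_self, ins_at, Equiv.swap_apply_right]
    · have : p.succ.succAbove k = p.castSucc.succAbove k := by
        rcases lt_or_gt_of_ne hk with h | h
        · rw [Fin.succAbove_of_castSucc_lt _ _ (by
            rw [Fin.lt_def] at h ⊢; simp; omega), Fin.succAbove_of_castSucc_lt _ _ (by
            rw [Fin.lt_def] at h ⊢; simp; omega)]
        · rw [Fin.succAbove_of_le_castSucc _ _ (by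
            rw [Fin.lt_def] at h; rw [Fin.le_def]; simp; omega), Fin.succAbove_of_le_castSucc _ _ (by
            rw [Fin.lt_def] at h; rw [Fin.le_def]; simp; omega)]
      rw [this, ins_succAbove, Equiv.swap_apply_of_ne_of_ne ?_ (hl _)]
      intro h
      exact hk (e.injective (Fin.castSucc_injective _ h))

theorem fib_step {n : ℕ} {A : Set (Equiv.Perm (Fin (n + 1)))} (hA : StrongUpSet A)
    (p : Fin n) : fib A p.castSucc ⊆ fib A p.succ := by
  intro e he
  have h := hA (ins p.castSucc e) he (Fin.castSucc (e p)) (Fin.last n) (Fin.castSucc_lt_last _)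
    (by rw [ins_symm_last, ins_symm_castSucc, Equiv.symm_apply_apply, Fin.succAbove_castSucc_self]
        exact Fin.castSucc_lt_succ)
  rw [swap_last_ins] at h
  exact h

theorem fib_mono {n : ℕ} {A : Set (Equiv.Perm (Fin (n + 1)))} (hA : StrongUpSet A) :
    Monotone (fib A) :=
  Fin.monotone_iff_le_succ.mpr fun p => fib_step hA p

theorem swap_two_ins {m : ℕ} (i : Fin m) (e : Equiv.Perm (Fin (m + 1))) :
    Equiv.swap (Fin.castSucc (e i.succ)) (Fin.last (m + 1)) * ins i.castSucc.castSucc e =
      ins i.succ.succ (e * Equiv.swap i.castSucc i.succ) := by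
  have hl : ∀ i : Fin (m + 1), Fin.castSucc i ≠ Fin.last (m + 1) :=
    fun i => (Fin.castSucc_lt_last i).ne
  have hne : i.castSucc ≠ i.succ := by simp [Fin.ext_iff]
  apply Equiv.ext
  intro x
  by_cases hx : x = i.succ.succ
  · subst hx
    rw [ins_at]
    have : i.succ.succ = i.castSucc.castSucc.succAbove i.succ := by
      rw [Fin.succAbove_of_le_castSucc]
      rw [Fin.le_def]; simp
    rw [Equiv.Perm.mul_apply, this, ins_succAbove, Equiv.swap_apply_left]
  · obtain ⟨k, rfl⟩ := Fin.exists_succAbove_eq hx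
    rw [ins_succAbove, Equiv.Perm.mul_apply, Equiv.Perm.mul_apply]
    by_cases hk : k = i.castSucc
    · subst hk
      have : i.succ.succ.succAbove i.castSucc = i.castSucc.castSucc := by
        rw [Fin.succAbove_of_castSucc_lt]
        rw [Fin.lt_def]; simp
      rw [this, ins_at, Equiv.swap_apply_right, Equiv.swap_apply_left]
    by_cases hk2 : k = i.succ
    · subst hk2
      have : i.succ.succ.succAbove i.succ = i.castSucc.castSucc.succAbove i.castSucc := by
        rw [Fin.succAbove_of_castSucc_lt, Fin.succAbove_of_le_castSucc]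
        · apply Fin.ext; simp
        · rw [Fin.le_def]
        · rw [Fin.lt_def]; simp
      rw [this, ins_succAbove, Equiv.swap_apply_of_ne_of_ne ?_ (hl _), Equiv.swap_apply_right]
      intro h
      exact hne (e.injective (Fin.castSucc_injective _ h))
    · have hki : (k : ℕ) ≠ i := fun h => hk (Fin.ext (by simpa using h))
      have hki2 : (k : ℕ) ≠ i + 1 := fun h => hk2 (Fin.ext (by simpa using h))
      have : i.succ.succ.succAbove k = i.castSucc.castSucc.succAbove k := by
        rcases lt_or_gt_of_ne hki with h | h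
        · rw [Fin.succAbove_of_castSucc_lt _ _ (by rw [Fin.lt_def]; simp; omega),
            Fin.succAbove_of_castSucc_lt _ _ (by rw [Fin.lt_def]; simp; omega)]
        · rw [Fin.succAbove_of_le_castSucc _ _ (by rw [Fin.le_def]; simp; omega),
            Fin.succAbove_of_le_castSucc _ _ (by rw [Fin.le_def]; simp; omega)]
      rw [this, ins_succAbove, Equiv.swap_apply_of_ne_of_ne ?_ (hl _),
        Equiv.swap_apply_of_ne_of_ne hk hk2]
      intro h
      exact hk2 (e.injective (Fin.castSucc_injective _ h))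

/-- A strong up-set whose extreme fibres agree is trivial. -/
theorem trivial_of_fib_eq {n : ℕ} {A : Set (Equiv.Perm (Fin (n + 1)))} (hA : StrongUpSet A)
    (hne : A.Nonempty) (h : fib A 0 = fib A (Fin.last n)) : A = Set.univ := by
  have hall : ∀ p, fib A p = fib A 0 := fun p =>
    Set.Subset.antisymm ((fib_mono hA (Fin.le_last p)).trans h.symm.subset)
      (fib_mono hA (Fin.zero_le p))
  obtain ⟨a, ha⟩ := hne
  obtain ⟨⟨p, e⟩, rfl⟩ := ins_bijective.2 a
  have he : e ∈ fib A 0 := by rw [← hall p]; exact ha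
  have huniv : fib A 0 = Set.univ := by
    obtain _ | m := n
    · ext e'
      have : e' = e := Equiv.ext fun k => k.elim0
      rw [this]; simp [he]
    · have hadj : ∀ (i : Fin m) (e : Equiv.Perm (Fin (m + 1))), e ∈ fib A 0 →
          e * Equiv.swap i.castSucc i.succ ∈ fib A 0 := by
        intro i e he
        have he' : ins i.castSucc.castSucc e ∈ A := by
          rw [← hall i.castSucc.castSucc] at he; exact he
        have h1 := hA _ he' (Fin.castSucc (e i.succ)) (Fin.last (m + 1))
          (Fin.castSucc_lt_last _) (by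
            rw [ins_symm_last, ins_symm_castSucc, Equiv.symm_apply_apply,
              Fin.succAbove_of_le_castSucc _ _ (by rw [Fin.le_def]; simp)]
            rw [Fin.lt_def]; simp)
        rw [swap_two_ins] at h1
        rw [← hall i.succ.succ]
        exact h1
      have hgen : ∀ g ∈ Submonoid.closure (Set.range fun i : Fin m =>
          Equiv.swap i.castSucc i.succ), ∀ e ∈ fib A 0, e * g ∈ fib A 0 := by
        intro g hg
        induction hg using Submonoid.closure_induction with
        | mem x hx => obtain ⟨i, rfl⟩ := hx; exact fun e he => hadj i e he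
        | one => intro e he; simpa using he
        | mul x y _ _ hx hy => intro e he; rw [← mul_assoc]; exact hy _ (hx e he)
      ext g
      simp only [Set.mem_univ, iff_true]
      have := hgen (e⁻¹ * g) (by rw [Equiv.Perm.mclosure_swap_castSucc_succ]; trivial) e he
      simpa using this
  ext b
  simp only [Set.mem_univ, iff_true]
  obtain ⟨⟨p', e'⟩, rfl⟩ := ins_bijective.2 b
  have : e' ∈ fib A p' := by rw [hall p', huniv]; trivial
  exact this

theorem chebyshev {N : ℕ} (f g : Fin (N + 1) → ℤ) (hf : Monotone f) (hg : Monotone g) :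
    (f (Fin.last N) - f 0) * (g (Fin.last N) - g 0) ≤
      2 * (((N + 1 : ℕ) : ℤ) * ∑ p, f p * g p - (∑ p, f p) * ∑ p, g p) := by
  have hexp : ∑ p, ∑ r, (f p - f r) * (g p - g r) =
      2 * (((N + 1 : ℕ) : ℤ) * ∑ p, f p * g p - (∑ p, f p) * ∑ p, g p) := by
    have e1 : ∀ p, ∑ r, (f p - f r) * (g p - g r) =
        ((N + 1 : ℕ) : ℤ) * (f p * g p) - f p * ∑ r, g r - (∑ r, f r) * g p +
          ∑ r, f r * g r := by
      intro p
      have : ∀ r, (f p - f r) * (g p - g r) =
        f p * g p - f p * g r - f r * g p + f r * g r := fun r => by ring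
      simp_rw [this]
      rw [Finset.sum_add_distrib, Finset.sum_sub_distrib, Finset.sum_sub_distrib,
        Finset.sum_const, Finset.card_univ, Fintype.card_fin, nsmul_eq_mul, ← Finset.mul_sum,
        ← Finset.sum_mul]
    simp_rw [e1]
    rw [Finset.sum_add_distrib, Finset.sum_sub_distrib, Finset.sum_sub_distrib,
      Finset.sum_const, Finset.card_univ, Fintype.card_fin, nsmul_eq_mul, ← Finset.mul_sum,
      ← Finset.sum_mul, ← Finset.mul_sum]
    ring
  have hterm : ∀ p r, 0 ≤ (f p - f r) * (g p - g r) := by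
    intro p r
    rcases le_total p r with h | h
    · have := hf h; have := hg h; nlinarith
    · have := hf h; have := hg h; nlinarith
  rw [← hexp]
  calc (f (Fin.last N) - f 0) * (g (Fin.last N) - g 0)
      ≤ ∑ r, (f (Fin.last N) - f r) * (g (Fin.last N) - g r) :=
        Finset.single_le_sum (f := fun r => (f (Fin.last N) - f r) * (g (Fin.last N) - g r))
          (fun r _ => hterm _ r) (Finset.mem_univ 0)
    _ ≤ _ := Finset.single_le_sum (f := fun p => ∑ r, (f p - f r) * (g p - g r))
          (fun p _ => Finset.sum_nonneg fun r _ => hterm p r) (Finset.mem_univ _)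

theorem uniform {n : ℕ} : ∀ A B : Set (Equiv.Perm (Fin n)), StrongUpSet A → StrongUpSet B →
    cnt A * cnt B ≤ (n.factorial : ℤ) * cnt (A ∩ B) := by
  induction n with
  | zero =>
    intro A B _ _
    rcases A.eq_empty_or_nonempty with h | ⟨a, ha⟩
    · subst h; simp [cnt]
    · have hA : A = Set.univ := by
        ext b; have : b = a := Equiv.ext fun k => k.elim0
        rw [this]; simp [ha]
      rw [hA, Set.univ_inter, cnt_univ]
  | succ n ih =>
    intro A B hA hB
    have h1 := chebyshev (fun p => cnt (fib A p)) (fun p => cnt (fib B p))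
      (fun p r h => cnt_mono (fib_mono hA h)) (fun p r h => cnt_mono (fib_mono hB h))
    have h2 : 0 ≤ (cnt (fib A (Fin.last n)) - cnt (fib A 0)) *
        (cnt (fib B (Fin.last n)) - cnt (fib B 0)) :=
      mul_nonneg (sub_nonneg.mpr (cnt_mono (fib_mono hA (Fin.zero_le _))))
        (sub_nonneg.mpr (cnt_mono (fib_mono hB (Fin.zero_le _))))
    have h3 : ∑ p, cnt (fib A p) * cnt (fib B p) ≤
        ∑ p, (n.factorial : ℤ) * cnt (fib (A ∩ B) p) :=
      Finset.sum_le_sum fun p _ => ih _ _ (fib_strong hA p) (fib_strong hB p)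
    rw [← Finset.mul_sum, ← cnt_fib] at h3
    rw [← cnt_fib, ← cnt_fib] at h1
    have h4 : ((n + 1).factorial : ℤ) = ((n + 1 : ℕ) : ℤ) * (n.factorial : ℤ) := by
      rw [Nat.factorial_succ]; push_cast; ring
    rw [h4]
    have h5 : (0 : ℤ) ≤ ((n + 1 : ℕ) : ℤ) := by positivity
    have h6 := mul_le_mul_of_nonneg_left h3 h5
    nlinarith

theorem uniform_strict {n : ℕ} (A B : Set (Equiv.Perm (Fin n))) (hA : StrongUpSet A)
    (hB : StrongUpSet B) (hA0 : A.Nonempty) (hB0 : B.Nonempty) (hA1 : A ≠ Set.univ)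
    (hB1 : B ≠ Set.univ) : cnt A * cnt B + 1 ≤ (n.factorial : ℤ) * cnt (A ∩ B) := by
  obtain _ | n := n
  · exfalso
    apply hA1
    obtain ⟨a, ha⟩ := hA0
    ext b; have : b = a := Equiv.ext fun k => k.elim0
    rw [this]; simp [ha]
  have h1 := chebyshev (fun p => cnt (fib A p)) (fun p => cnt (fib B p))
    (fun p r h => cnt_mono (fib_mono hA h)) (fun p r h => cnt_mono (fib_mono hB h))
  have h2 : 0 < (cnt (fib A (Fin.last n)) - cnt (fib A 0)) *
      (cnt (fib B (Fin.last n)) - cnt (fib B 0)) :=
    mul_pos (sub_pos.mpr (cnt_lt (fib_mono hA (Fin.zero_le _))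
        (fun h => hA1 (trivial_of_fib_eq hA hA0 h))))
      (sub_pos.mpr (cnt_lt (fib_mono hB (Fin.zero_le _))
        (fun h => hB1 (trivial_of_fib_eq hB hB0 h))))
  have h3 : ∑ p, cnt (fib A p) * cnt (fib B p) ≤
      ∑ p, (n.factorial : ℤ) * cnt (fib (A ∩ B) p) :=
    Finset.sum_le_sum fun p _ => uniform _ _ (fib_strong hA p) (fib_strong hB p)
  rw [← Finset.mul_sum, ← cnt_fib] at h3
  rw [← cnt_fib, ← cnt_fib] at h1
  have h4 : ((n + 1).factorial : ℤ) = ((n + 1 : ℕ) : ℤ) * (n.factorial : ℤ) := by
    rw [Nat.factorial_succ]; push_cast; ring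
  rw [h4]
  have h5 : (0 : ℤ) ≤ ((n + 1 : ℕ) : ℤ) := by positivity
  have h6 := mul_le_mul_of_nonneg_left h3 h5
  nlinarith

/-- Positive association for small parameter. -/
theorem small (n : ℕ) (q : ℝ) (hq : 0 < q) (hqn : q ≤ 1 / (n.factorial : ℝ))
    (A B : Set (Equiv.Perm (Fin n))) (hA : StrongUpSet A) (hB : StrongUpSet B) :
    mu n q A * mu n q B ≤ mu n q (A ∩ B) := by
  classical
  have hfact : (1 : ℝ) ≤ (n.factorial : ℝ) := by exact_mod_cast Nat.succ_le_of_lt n.factorial_pos
  have hq1 : q ≤ 1 := hqn.trans (by rw [div_le_one (by linarith)]; exact hfact)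
  set Z := ∑ b : Equiv.Perm (Fin n), weight q b with hZ
  have hZ1 : 1 ≤ Z := by
    have h := Finset.single_le_sum (f := fun b : Equiv.Perm (Fin n) => weight q b)
      (fun b _ => weight_nonneg hq b) (Finset.mem_univ (1 : Equiv.Perm (Fin n)))
    have h2 : weight q (1 : Equiv.Perm (Fin n)) = 1 := by rw [weight_eq]; simp
    rw [← h2]; exact h
  have hsplit : ∀ S : Set (Equiv.Perm (Fin n)),
      ∑ a, S.indicator (weight q) a = Z - ∑ a, Sᶜ.indicator (weight q) a := by
    intro S
    rw [eq_sub_iff_add_eq, ← Finset.sum_add_distrib, hZ]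
    refine Finset.sum_congr rfl fun a _ => ?_
    by_cases ha : a ∈ S
    · simp [ha]
    · simp [ha]
  have hnonneg : ∀ S : Set (Equiv.Perm (Fin n)), 0 ≤ ∑ a, S.indicator (weight q) a := by
    intro S
    exact Finset.sum_nonneg fun a _ => Set.indicator_nonneg (fun b _ => weight_nonneg hq b) a
  have hunion : ∑ a, (A ∩ B)ᶜ.indicator (weight q) a =
      ∑ a, Aᶜ.indicator (weight q) a + ∑ a, Bᶜ.indicator (weight q) a -
        ∑ a, (Aᶜ ∩ Bᶜ).indicator (weight q) a := by
    rw [← Finset.sum_add_distrib, ← Finset.sum_sub_distrib]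
    refine Finset.sum_congr rfl fun a _ => ?_
    by_cases ha : a ∈ A <;> by_cases hb : a ∈ B <;> simp [ha, hb]
  have main : (∑ a, Aᶜ.indicator (weight q) a) * (∑ a, Bᶜ.indicator (weight q) a) ≤
      (∑ a, (Aᶜ ∩ Bᶜ).indicator (weight q) a) * Z := by
    have hFc := closed_compl hA
    have hGc := closed_compl hB
    rcases A.eq_empty_or_nonempty with hAe | hAn
    · subst hAe
      have := hnonneg Bᶜ
      simp only [Set.compl_empty, Set.univ_inter, Set.indicator_univ]
      rw [← hZ, mul_comm]
    rcases B.eq_empty_or_nonempty with hBe | hBn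
    · subst hBe
      simp only [Set.compl_empty, Set.inter_univ, Set.indicator_univ]
      rw [← hZ]
    have hF1 : (1 : Equiv.Perm (Fin n)) ∉ Aᶜ := fun h => h (one_mem_of_strongUpSet hA hAn)
    have hG1 : (1 : Equiv.Perm (Fin n)) ∉ Bᶜ := fun h => h (one_mem_of_strongUpSet hB hBn)
    generalize Aᶜ = F at *
    generalize Bᶜ = G at *
    rcases F.eq_empty_or_nonempty with hFe | hFn
    · subst hFe; simp
    rcases G.eq_empty_or_nonempty with hGe | hGn
    · subst hGe; simp
    obtain _ | _ | m := n
    · exact absurd (by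
        obtain ⟨x, hx⟩ := hFn
        rwa [Subsingleton.elim x 1] at hx) hF1
    · exact absurd (by
        obtain ⟨x, hx⟩ := hFn
        have hx1 : x = 1 := Equiv.ext fun k => by
          have h1 := (x k).isLt
          have h2 := ((1 : Equiv.Perm (Fin (0 + 1))) k).isLt
          exact Fin.ext (by omega)
        rwa [hx1] at hx) hF1
    obtain ⟨s, t, z, hz, hs, ht, hc⟩ := exists_inter hFc hGc hFn hGn hF1 hG1
    have b1 := sum_le hq hq1 F s hs
    have b2 := sum_le hq hq1 G t ht
    have b3 : q ^ (s + t - 2) ≤ ∑ a, (F ∩ G).indicator (weight q) a := by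
      have h := Finset.single_le_sum (f := fun a => (F ∩ G).indicator (weight q) a)
        (fun b _ => Set.indicator_nonneg (fun b _ => weight_nonneg hq b) b) (Finset.mem_univ z)
      refine le_trans ?_ h
      show q ^ (s + t - 2) ≤ (F ∩ G).indicator (weight q) z
      rw [Set.indicator_of_mem hz, weight_eq]
      exact pow_le_pow_of_le_one hq.le hq1 (by omega)
    have b4 : ((m + 2).factorial : ℝ) * q ≤ 1 := by
      rw [le_div_iff₀ (by positivity)] at hqn
      linarith
    have b5 : ((m + 2).factorial : ℝ) * q ^ s * (((m + 2).factorial : ℝ) * q ^ t) ≤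
        q ^ (s + t - 2) := by
      have e : ((m + 2).factorial : ℝ) * q ^ s * (((m + 2).factorial : ℝ) * q ^ t) =
          (((m + 2).factorial : ℝ) * q) ^ 2 * q ^ (s + t - 2) := by
        have e2 : q ^ s * q ^ t = q ^ 2 * q ^ (s + t - 2) := by
          rw [← pow_add, ← pow_add]; congr 1; omega
        calc ((m + 2).factorial : ℝ) * q ^ s * (((m + 2).factorial : ℝ) * q ^ t)
            = ((m + 2).factorial : ℝ) ^ 2 * (q ^ s * q ^ t) := by ring
          _ = _ := by rw [e2]; ring
      rw [e]
      have h1 : (((m + 2).factorial : ℝ) * q) ^ 2 ≤ 1 := pow_le_one₀ (by positivity) b4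
      have h2 : 0 ≤ q ^ (s + t - 2) := by positivity
      nlinarith
    calc (∑ a, F.indicator (weight q) a) * (∑ a, G.indicator (weight q) a)
        ≤ ((m + 2).factorial : ℝ) * q ^ s * (((m + 2).factorial : ℝ) * q ^ t) :=
          mul_le_mul b1 b2 (hnonneg G) (by positivity)
      _ ≤ q ^ (s + t - 2) := b5
      _ ≤ ∑ a, (F ∩ G).indicator (weight q) a := b3
      _ = (∑ a, (F ∩ G).indicator (weight q) a) * 1 := (mul_one _).symm
      _ ≤ _ := mul_le_mul_of_nonneg_left hZ1 (hnonneg _)
  unfold mu
  rw [← hZ, div_mul_div_comm, div_le_div_iff₀ (by positivity) (by positivity)]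
  rw [hsplit A, hsplit B, hsplit (A ∩ B), hunion]
  nlinarith

/-- Positive association for parameter near `1`. -/
theorem large (n : ℕ) (q : ℝ) (hq : 0 < q) (hq1 : q ≤ 1)
    (hqn : 1 - 1 / (2 * (n : ℝ) * ((n.factorial : ℝ) ^ 2 + 1)) ≤ q)
    (A B : Set (Equiv.Perm (Fin n))) (hA : StrongUpSet A) (hB : StrongUpSet B) :
    mu n q A * mu n q B ≤ mu n q (A ∩ B) := by
  classical
  set Z := ∑ b : Equiv.Perm (Fin n), weight q b with hZ
  have hZ1 : 1 ≤ Z := by
    have h := Finset.single_le_sum (f := fun b : Equiv.Perm (Fin n) => weight q b)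
      (fun b _ => weight_nonneg hq b) (Finset.mem_univ (1 : Equiv.Perm (Fin n)))
    have h2 : weight q (1 : Equiv.Perm (Fin n)) = 1 := by rw [weight_eq]; simp
    rw [← h2]; exact h
  have hmuuniv : mu n q Set.univ = 1 := by
    unfold mu
    simp only [Set.indicator_univ]
    rw [← hZ]; exact div_self (by linarith)
  have hmuempty : mu n q ∅ = 0 := by
    unfold mu; simp
  rcases A.eq_empty_or_nonempty with hA0 | hA0
  · subst hA0; simp [hmuempty]
  rcases B.eq_empty_or_nonempty with hB0 | hB0
  · subst hB0; simp [hmuempty]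
  by_cases hA1 : A = Set.univ
  · subst hA1; simp [hmuuniv]
  by_cases hB1 : B = Set.univ
  · subst hB1; simp [hmuuniv]
  have hstrict := uniform_strict A B hA hB hA0 hB0 hA1 hB1
  have hup : ∀ S : Set (Equiv.Perm (Fin n)),
      ∑ a, S.indicator (weight q) a ≤ ((cnt S : ℤ) : ℝ) := by
    intro S
    unfold cnt
    push_cast
    refine Finset.sum_le_sum fun a _ => ?_
    by_cases ha : a ∈ S
    · rw [Set.indicator_of_mem ha, Set.indicator_of_mem ha]
      unfold weight
      simpa using pow_le_one₀ hq.le hq1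
    · rw [Set.indicator_of_notMem ha, Set.indicator_of_notMem ha]; simp
  have hlow : ∀ S : Set (Equiv.Perm (Fin n)),
      q ^ n * ((cnt S : ℤ) : ℝ) ≤ ∑ a, S.indicator (weight q) a := by
    intro S
    unfold cnt
    push_cast
    rw [Finset.mul_sum]
    refine Finset.sum_le_sum fun a _ => ?_
    by_cases ha : a ∈ S
    · rw [Set.indicator_of_mem ha, Set.indicator_of_mem ha]
      unfold weight
      simpa using pow_le_pow_of_le_one hq.le hq1 (Nat.sub_le n (fixedPoints a))
    · rw [Set.indicator_of_notMem ha, Set.indicator_of_notMem ha]; simp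
  have hnonneg : ∀ S : Set (Equiv.Perm (Fin n)), 0 ≤ ∑ a, S.indicator (weight q) a := by
    intro S
    exact Finset.sum_nonneg fun a _ => Set.indicator_nonneg (fun b _ => weight_nonneg hq b) a
  have hZlow : q ^ n * (n.factorial : ℝ) ≤ Z := by
    have h := hlow Set.univ
    rw [cnt_univ] at h
    simp only [Set.indicator_univ] at h
    rw [← hZ] at h
    exact_mod_cast h
  have hcA : 0 ≤ ((cnt A : ℤ) : ℝ) := by exact_mod_cast cnt_nonneg A
  have hcB : 0 ≤ ((cnt B : ℤ) : ℝ) := by exact_mod_cast cnt_nonneg B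
  have hcA1 : ((cnt A : ℤ) : ℝ) ≤ (n.factorial : ℝ) := by
    have := cnt_mono (Set.subset_univ A)
    rw [cnt_univ] at this
    exact_mod_cast this
  have hcB1 : ((cnt B : ℤ) : ℝ) ≤ (n.factorial : ℝ) := by
    have := cnt_mono (Set.subset_univ B)
    rw [cnt_univ] at this
    exact_mod_cast this
  have hstrict' : ((cnt A : ℤ) : ℝ) * ((cnt B : ℤ) : ℝ) + 1 ≤
      (n.factorial : ℝ) * ((cnt (A ∩ B) : ℤ) : ℝ) := by exact_mod_cast hstrict
  set X := ((cnt A : ℤ) : ℝ) * ((cnt B : ℤ) : ℝ) with hX
  set K := (n.factorial : ℝ) ^ 2 with hK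
  have hX0 : 0 ≤ X := mul_nonneg hcA hcB
  have hXK : X ≤ K := by
    rw [hX, hK, sq]; exact mul_le_mul hcA1 hcB1 hcB (by positivity)
  have hK0 : 0 ≤ K := hX0.trans hXK
  have hpow : 1 - 1 / (K + 1) ≤ q ^ (2 * n) := by
    have hb := one_add_mul_le_pow (a := q - 1) (by linarith) (2 * n)
    have e : 1 + (q - 1) = q := by ring
    rw [e] at hb
    refine le_trans ?_ hb
    rcases Nat.eq_zero_or_pos n with h0 | h0
    · subst h0; simp; positivity
    · have hn : (0 : ℝ) < n := by exact_mod_cast h0
      have h1 : 1 / (2 * (n : ℝ) * (K + 1)) * (2 * n) = 1 / (K + 1) := by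
        field_simp
      have h2 : (1 - q) * (2 * n) ≤ 1 / (2 * (n : ℝ) * (K + 1)) * (2 * n) := by
        apply mul_le_mul_of_nonneg_right _ (by positivity)
        linarith
      rw [h1] at h2
      push_cast
      linarith
  have hkey : X ≤ q ^ (2 * n) * (X + 1) := by
    have h1 : (1 - 1 / (K + 1)) * (X + 1) ≤ q ^ (2 * n) * (X + 1) :=
      mul_le_mul_of_nonneg_right hpow (by linarith)
    refine le_trans ?_ h1
    have h2 : (X + 1) / (K + 1) ≤ 1 := by
      rw [div_le_one (by linarith)]; linarith
    have h3 : (1 - 1 / (K + 1)) * (X + 1) = X + 1 - (X + 1) / (K + 1) := by ring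
    rw [h3]; linarith
  unfold mu
  rw [← hZ, div_mul_div_comm, div_le_div_iff₀ (by positivity) (by positivity)]
  have hmain : (∑ a, A.indicator (weight q) a) * (∑ a, B.indicator (weight q) a) ≤
      (∑ a, (A ∩ B).indicator (weight q) a) * Z := by
    calc (∑ a, A.indicator (weight q) a) * (∑ a, B.indicator (weight q) a)
        ≤ X := mul_le_mul (hup A) (hup B) (hnonneg B) hcA
      _ ≤ q ^ (2 * n) * (X + 1) := hkey
      _ ≤ q ^ (2 * n) * ((n.factorial : ℝ) * ((cnt (A ∩ B) : ℤ) : ℝ)) :=
        mul_le_mul_of_nonneg_left hstrict' (by positivity)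
      _ = (q ^ n * ((cnt (A ∩ B) : ℤ) : ℝ)) * (q ^ n * (n.factorial : ℝ)) := by
        rw [two_mul, pow_add]; ring
      _ ≤ _ := mul_le_mul (hlow _) hZlow (by positivity) (hnonneg _)
  have := mul_le_mul_of_nonneg_right hmain (show (0 : ℝ) ≤ Z by linarith)
  nlinarith

/-- **Positive association at both ends of the parameter range.**  For every `n`, the measure
`μ_{n,q}` is positively associated for all `0 < q ≤ 1 / n!` and for all
`1 - 1 / (2 n ((n!)² + 1)) ≤ q ≤ 1`. -/
theorem result (n : ℕ) (q : ℝ) (hq : 0 < q) (hq1 : q ≤ 1)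
    (hqn : q ≤ 1 / (n.factorial : ℝ) ∨
      1 - 1 / (2 * (n : ℝ) * ((n.factorial : ℝ) ^ 2 + 1)) ≤ q)
    (A B : Set (Equiv.Perm (Fin n))) (hA : StrongUpSet A) (hB : StrongUpSet B) :
    mu n q A * mu n q B ≤ mu n q (A ∩ B) := by
  rcases hqn with h | h
  · exact small n q hq h A B hA hB
  · exact large n q hq hq1 h A B hA hB

end Pool.Agent.Results.MP_f011a7_co.BothEnds
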